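import Mathlib

/-!
# Lang's inequality for almost all algebraic numbers, up to the height
-/

set_option autoImplicit false

namespace Pool.Agent.Results.MP_c307ca_nt.AlmostAllToHeight

open Finset Polynomial

/-! ### counting solutions of one linear equation -/

/-- the box of coefficient vectors -/
noncomputable def box (n : ℕ) (H : ℤ) : Finset (Fin n → ℤ) := Fintype.piFinset fun _ => Icc (-H) H

/-- the homogeneous form -/
def frm (p q : ℤ) (n : ℕ) (a : Fin (n + 1) → ℤ) : ℤ :=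
  ∑ i : Fin (n + 1), a i * p ^ (i : ℕ) * q ^ (n - (i : ℕ))

theorem frm_succ (p q : ℤ) (n : ℕ) (a : Fin (n + 2) → ℤ) :
    frm p q (n + 1) a = q * frm p q n (Fin.init a) + a (Fin.last (n + 1)) * p ^ (n + 1) := by
  unfold frm
  rw [Fin.sum_univ_castSucc, Finset.mul_sum]
  congr 1
  · refine Finset.sum_congr rfl fun i _ => ?_
    have hi : (i : ℕ) ≤ n := Nat.lt_succ_iff.mp i.2
    have h1 : n + 1 - (i : ℕ) = (n - (i : ℕ)) + 1 := by omega
    simp only [Fin.val_castSucc, Fin.init, h1, pow_succ]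
    ring
  · simp

theorem card_residue (H q : ℤ) (hq : 0 < q) (hH : q ≤ H) (v : ℤ) :
    (((Icc (-H) H).filter (fun x => x ≡ v [ZMOD q])).card : ℝ) ≤ 4 * H / q := by
  have e1 : Icc (-H) H = Ioc (-H - 1) H := by
    ext x
    simp only [mem_Icc, mem_Ioc]
    omega
  have h1 := Int.Ioc_filter_modEq_card (-H - 1) H hq v
  rw [e1]
  have hqR : (0 : ℚ) < q := by exact_mod_cast hq
  have hHQ : (q : ℚ) ≤ H := by exact_mod_cast hH
  have hq1 : (1 : ℚ) ≤ q := by exact_mod_cast hq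
  have h2 : (((Ioc (-H - 1) H).filter (fun x => x ≡ v [ZMOD q])).card : ℚ) ≤ 4 * H / q := by
    have h3 : ((((Ioc (-H - 1) H).filter (fun x => x ≡ v [ZMOD q])).card : ℤ) : ℚ) =
        ((max (⌊((H : ℚ) - v) / (q : ℚ)⌋ - ⌊(((-H - 1 : ℤ) : ℚ) - v) / (q : ℚ)⌋) 0 : ℤ) : ℚ) := by
      rw [h1]
    have h3' : (((Ioc (-H - 1) H).filter (fun x => x ≡ v [ZMOD q])).card : ℚ) =
        ((max (⌊((H : ℚ) - v) / (q : ℚ)⌋ - ⌊(((-H - 1 : ℤ) : ℚ) - v) / (q : ℚ)⌋) 0 : ℤ) : ℚ) := by
      rw [← h3]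
      norm_cast
    rw [h3']
    push_cast
    have hH0 : (0 : ℚ) ≤ H := by linarith
    refine max_le ?_ (by positivity)
    have h4 := Int.floor_le (((H : ℚ) - v) / (q : ℚ))
    have h5 := Int.lt_floor_add_one ((((-H - 1 : ℤ) : ℚ) - v) / (q : ℚ))
    push_cast at h5
    have h6 : ((H : ℚ) - v) / q - ((-H - 1 : ℚ) - v) / q + 1 ≤ 4 * H / q := by
      rw [← sub_div, div_add_one hqR.ne', div_le_div_iff_of_pos_right hqR]
      linarith
    linarith
  have h7 : ((((Ioc (-H - 1) H).filter (fun x => x ≡ v [ZMOD q])).card : ℚ) : ℝ) ≤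
      ((4 * H / q : ℚ) : ℝ) := by exact_mod_cast h2
  push_cast at h7
  exact h7

theorem card_sol (H q p : ℤ) (hq : 0 < q) (hH : q ≤ H) (hpq : IsCoprime p q) :
    ∀ (n : ℕ) (N : ℤ),
      (((box (n + 1) H).filter (fun a => frm p q n a = N)).card : ℝ) ≤ (4 * H / q) ^ n := by
  have hqR : (0 : ℝ) < q := by exact_mod_cast hq
  have hHR : (0 : ℝ) < H := by exact_mod_cast (lt_of_lt_of_le hq hH)
  have hpos : (0 : ℝ) ≤ 4 * H / q := by positivity
  intro n
  induction n with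
  | zero =>
    intro N
    rw [pow_zero]
    have : ((box (0 + 1) H).filter (fun a => frm p q 0 a = N)).card ≤ 1 := by
      rw [Finset.card_le_one]
      intro a ha b hb
      have h1 := (Finset.mem_filter.mp ha).2
      have h2 := (Finset.mem_filter.mp hb).2
      unfold frm at h1 h2
      simp at h1 h2
      ext i
      have : i = 0 := by
        apply Fin.ext
        have := i.2
        simp only [Fin.val_zero]
        omega
      rw [this]
      omega
    exact_mod_cast this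
  | succ n ih =>
    intro N
    set S := (box (n + 1 + 1) H).filter (fun a => frm p q (n + 1) a = N) with hS
    by_cases hne : S.Nonempty
    · obtain ⟨a0, ha0⟩ := hne
      set v := a0 (Fin.last (n + 1)) with hv
      set Rs := (Icc (-H) H).filter (fun x => x ≡ v [ZMOD q]) with hRs
      have hmap : ∀ a ∈ S, a (Fin.last (n + 1)) ∈ Rs := by
        intro a ha
        have h1 := (Finset.mem_filter.mp ha).2
        have h2 := (Finset.mem_filter.mp ha0).2
        rw [frm_succ] at h1 h2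
        have hb := (Fintype.mem_piFinset.mp (Finset.mem_filter.mp ha).1) (Fin.last (n + 1))
        rw [hRs, Finset.mem_filter]
        refine ⟨hb, ?_⟩
        have h3 : q ∣ (a (Fin.last (n + 1)) - v) * p ^ (n + 1) :=
          ⟨frm p q n (Fin.init a0) - frm p q n (Fin.init a), by rw [hv]; linarith⟩
        have h4 : IsCoprime q (p ^ (n + 1)) := (hpq.pow_left).symm
        have h5 := h4.dvd_of_dvd_mul_right h3
        exact (Int.modEq_iff_dvd.mpr h5).symm
      have hcard : (S.card : ℝ) = ∑ x ∈ Rs, ((S.filter (fun a => a (Fin.last (n + 1)) = x)).card : ℝ) := by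
        exact_mod_cast Finset.card_eq_sum_card_fiberwise hmap
      have hfib : ∀ x ∈ Rs, ((S.filter (fun a => a (Fin.last (n + 1)) = x)).card : ℝ) ≤
          (4 * H / q) ^ n := by
        intro x _
        by_cases hne : (S.filter (fun a => a (Fin.last (n + 1)) = x)).Nonempty
        · obtain ⟨b, hb⟩ := hne
          obtain ⟨hb1, hb2⟩ := Finset.mem_filter.mp hb
          have hb3 := (Finset.mem_filter.mp hb1).2
          rw [frm_succ, hb2] at hb3
          have hle : (S.filter (fun a => a (Fin.last (n + 1)) = x)).card ≤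
              ((box (n + 1) H).filter (fun a => frm p q n a = frm p q n (Fin.init b))).card := by
            refine Finset.card_le_card_of_injOn (fun a => Fin.init a) ?_ ?_
            · intro a ha
              obtain ⟨ha1, ha2⟩ := Finset.mem_filter.mp (Finset.mem_coe.mp ha)
              have ha3 := (Finset.mem_filter.mp ha1).2
              rw [frm_succ, ha2] at ha3
              rw [Finset.mem_coe, Finset.mem_filter]
              refine ⟨?_, ?_⟩
              · refine Fintype.mem_piFinset.mpr fun i => ?_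
                exact (Fintype.mem_piFinset.mp (Finset.mem_filter.mp ha1).1) (Fin.castSucc i)
              · have h1 : q * frm p q n (Fin.init a) = q * frm p q n (Fin.init b) := by linarith
                exact mul_left_cancel₀ hq.ne' h1
            · intro a ha b' hb' hab
              obtain ⟨_, ha2⟩ := Finset.mem_filter.mp (Finset.mem_coe.mp ha)
              obtain ⟨_, hb2'⟩ := Finset.mem_filter.mp (Finset.mem_coe.mp hb')
              have hab' : Fin.init a = Fin.init b' := hab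
              rw [← Fin.snoc_init_self a, ← Fin.snoc_init_self b', hab', ha2, hb2']
          calc ((S.filter (fun a => a (Fin.last (n + 1)) = x)).card : ℝ)
              ≤ (((box (n + 1) H).filter
                (fun a => frm p q n a = frm p q n (Fin.init b))).card : ℝ) := by exact_mod_cast hle
            _ ≤ (4 * H / q) ^ n := ih _
        · rw [Finset.not_nonempty_iff_eq_empty] at hne
          rw [hne]
          simp only [Finset.card_empty, Nat.cast_zero]
          positivity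
      rw [hcard]
      calc ∑ x ∈ Rs, ((S.filter (fun a => a (Fin.last (n + 1)) = x)).card : ℝ)
          ≤ ∑ _x ∈ Rs, (4 * (H : ℝ) / q) ^ n := Finset.sum_le_sum hfib
        _ = (Rs.card : ℝ) * (4 * H / q) ^ n := by rw [Finset.sum_const, nsmul_eq_mul]
        _ ≤ (4 * H / q) * (4 * H / q) ^ n :=
            mul_le_mul_of_nonneg_right (card_residue H q hq hH v) (by positivity)
        _ = (4 * H / q) ^ (n + 1) := by ring
    · rw [Finset.not_nonempty_iff_eq_empty] at hne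
      rw [hne]
      simp only [Finset.card_empty, Nat.cast_zero]
      positivity

/-! ### values of polynomials at rational points near a root -/

/-- value of the polynomial -/
noncomputable def ev {n : ℕ} (a : Fin n → ℤ) (y : ℝ) : ℝ := ∑ i : Fin n, (a i : ℝ) * y ^ (i : ℕ)

theorem frm_eq {n : ℕ} (a : Fin (n + 1) → ℤ) (p q : ℤ) (hq : 0 < q) :
    (frm p q n a : ℝ) = (q : ℝ) ^ n * ev a ((p : ℝ) / q) := by
  unfold frm ev
  push_cast
  rw [Finset.mul_sum]
  refine Finset.sum_congr rfl fun i _ => ?_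
  have hi : (i : ℕ) ≤ n := Nat.lt_succ_iff.mp i.2
  have hqR : (q : ℝ) ≠ 0 := by exact_mod_cast hq.ne'
  rw [div_pow]
  have h1 : (q : ℝ) ^ n = (q : ℝ) ^ (n - (i : ℕ)) * (q : ℝ) ^ (i : ℕ) := by
    rw [← pow_add]
    congr 1
    omega
  rw [h1]
  field_simp

/-- the constant -/
noncomputable def KK (d T : ℕ) : ℝ := (d + 1) * (d * (T + 1 : ℝ) ^ d)

theorem KK_nonneg (d T : ℕ) : 0 ≤ KK d T := by unfold KK; positivity

theorem ev_sub (d T H : ℕ) (a : Fin (d + 1) → ℤ) (ha : ∀ i, |a i| ≤ (H : ℤ)) (y ξ : ℝ)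
    (hy : |y| ≤ T + 1) (hξ : |ξ| ≤ T + 1) :
    |ev a y - ev a ξ| ≤ KK d T * H * |y - ξ| := by
  unfold ev
  rw [← Finset.sum_sub_distrib]
  refine (Finset.abs_sum_le_sum_abs _ _).trans ?_
  have hT1 : (1 : ℝ) ≤ T + 1 := by
    have : (0 : ℝ) ≤ T := Nat.cast_nonneg T
    linarith
  have h1 : ∀ i ∈ (Finset.univ : Finset (Fin (d + 1))),
      |(a i : ℝ) * y ^ (i : ℕ) - (a i : ℝ) * ξ ^ (i : ℕ)| ≤
        H * (|y - ξ| * (d * (T + 1 : ℝ) ^ d)) := by
    intro i _
    rw [← mul_sub, abs_mul]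
    have h2 : |(a i : ℝ)| ≤ H := by exact_mod_cast ha i
    have hi : (i : ℕ) ≤ d := Nat.lt_succ_iff.mp i.2
    have h3 : |y ^ (i : ℕ) - ξ ^ (i : ℕ)| ≤ |y - ξ| * (d * (T + 1 : ℝ) ^ d) := by
      refine (abs_pow_sub_pow_le y ξ (i : ℕ)).trans ?_
      rw [mul_assoc]
      refine mul_le_mul_of_nonneg_left ?_ (abs_nonneg _)
      refine mul_le_mul (by exact_mod_cast hi) ?_ (by positivity) (by positivity)
      calc max |y| |ξ| ^ ((i : ℕ) - 1) ≤ (T + 1 : ℝ) ^ ((i : ℕ) - 1) :=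
            pow_le_pow_left₀ (le_max_of_le_left (abs_nonneg _)) (max_le hy hξ) _
        _ ≤ (T + 1 : ℝ) ^ d := pow_le_pow_right₀ hT1 (by omega)
    exact mul_le_mul h2 h3 (abs_nonneg _) (by positivity)
  refine (Finset.sum_le_sum h1).trans ?_
  rw [Finset.sum_const, Finset.card_univ, Fintype.card_fin, nsmul_eq_mul]
  unfold KK
  push_cast
  apply le_of_eq
  ring

/-- a polynomial with a large root has a small leading coefficient -/
theorem lead_small (d T H : ℕ) (hT : 2 ≤ T) (a : Fin (d + 1) → ℤ) (ha : ∀ i, |a i| ≤ (H : ℤ))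
    (ξ : ℝ) (h0 : ev a ξ = 0) (hξ : (T : ℝ) < |ξ|) :
    |(a (Fin.last d) : ℝ)| * (T - 1) ≤ H := by
  have hT2 : (2 : ℝ) ≤ T := by exact_mod_cast hT
  set x := |ξ| with hx
  have hx2 : 2 < x := by linarith
  have hsum : (a (Fin.last d) : ℝ) * ξ ^ d = -∑ i : Fin d, (a (Fin.castSucc i) : ℝ) * ξ ^ (i : ℕ) := by
    unfold ev at h0
    rw [Fin.sum_univ_castSucc] at h0
    simp only [Fin.val_castSucc, Fin.val_last] at h0
    linarith
  have h1 : |(a (Fin.last d) : ℝ)| * x ^ d ≤ H * ∑ i ∈ Finset.range d, x ^ i := by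
    have e1 : |(a (Fin.last d) : ℝ)| * x ^ d = |(a (Fin.last d) : ℝ) * ξ ^ d| := by
      rw [abs_mul, abs_pow]
    rw [e1, hsum, abs_neg]
    refine (Finset.abs_sum_le_sum_abs _ _).trans ?_
    rw [Finset.mul_sum, ← Fin.sum_univ_eq_sum_range (fun i => (H : ℝ) * x ^ i) d]
    refine Finset.sum_le_sum fun i _ => ?_
    rw [abs_mul, abs_pow]
    have h2 : |(a (Fin.castSucc i) : ℝ)| ≤ H := by exact_mod_cast ha _
    exact mul_le_mul_of_nonneg_right h2 (by positivity)
  have h2 : (∑ i ∈ Finset.range d, x ^ i) * (x - 1) = x ^ d - 1 := geom_sum_mul x d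
  have hxd : 0 < x ^ d := by positivity
  have hH0 : (0 : ℝ) ≤ H := Nat.cast_nonneg H
  have h3 : |(a (Fin.last d) : ℝ)| * (x - 1) * x ^ d ≤ H * x ^ d := by
    calc |(a (Fin.last d) : ℝ)| * (x - 1) * x ^ d
        = (|(a (Fin.last d) : ℝ)| * x ^ d) * (x - 1) := by ring
      _ ≤ (H * ∑ i ∈ Finset.range d, x ^ i) * (x - 1) :=
          mul_le_mul_of_nonneg_right h1 (by linarith)
      _ = H * (x ^ d - 1) := by rw [mul_assoc, h2]
      _ ≤ H * x ^ d := mul_le_mul_of_nonneg_left (by linarith) hH0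
  have h4 := le_of_mul_le_mul_right h3 hxd
  calc |(a (Fin.last d) : ℝ)| * (T - 1) ≤ |(a (Fin.last d) : ℝ)| * (x - 1) :=
        mul_le_mul_of_nonneg_left (by linarith) (abs_nonneg _)
    _ ≤ H := h4

/-! ### the approximation function -/

/-- the approximation function -/
noncomputable def w (ε : ℝ) (q : ℕ) : ℝ :=
  1 / (((max q 2 : ℕ) : ℝ) ^ 2 * Real.log ((max q 2 : ℕ) : ℝ) ^ (1 + ε))

theorem log_pos' (q : ℕ) : 0 < Real.log ((max q 2 : ℕ) : ℝ) := by
  apply Real.log_pos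
  have : (2 : ℕ) ≤ max q 2 := le_max_right _ _
  have : (2 : ℝ) ≤ ((max q 2 : ℕ) : ℝ) := by exact_mod_cast this
  linarith

theorem w_pos (ε : ℝ) (q : ℕ) : 0 < w ε q := by
  unfold w
  have h1 := log_pos' q
  have h2 : (0 : ℝ) < ((max q 2 : ℕ) : ℝ) := by
    have : (0 : ℕ) < max q 2 := by omega
    exact_mod_cast this
  positivity

theorem w_anti (ε : ℝ) (hε : 0 < ε) {m n : ℕ} (h : m ≤ n) : w ε n ≤ w ε m := by
  unfold w
  have h1 := log_pos' m
  have h2 : (0 : ℝ) < ((max m 2 : ℕ) : ℝ) := by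
    have : (0 : ℕ) < max m 2 := by omega
    exact_mod_cast this
  have h3 : ((max m 2 : ℕ) : ℝ) ≤ ((max n 2 : ℕ) : ℝ) := by
    have : max m 2 ≤ max n 2 := by omega
    exact_mod_cast this
  apply one_div_le_one_div_of_le (by positivity)
  refine mul_le_mul (pow_le_pow_left₀ h2.le h3 2) ?_ (by positivity) (by positivity)
  exact Real.rpow_le_rpow h1.le (Real.log_le_log h2 h3) (by linarith)

theorem w_le (ε : ℝ) (hε : 0 < ε) (q : ℕ) : w ε q ≤ 1 / Real.log 2 ^ (1 + ε) := by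
  refine (w_anti ε hε (Nat.zero_le q)).trans ?_
  unfold w
  have h1 : (0 : ℝ) < Real.log 2 := Real.log_pos (by norm_num)
  simp only [Nat.zero_le, sup_of_le_right, Nat.cast_ofNat]
  apply one_div_le_one_div_of_le (by positivity)
  have h2 : 0 < Real.log 2 ^ (1 + ε) := by positivity
  nlinarith

theorem w_summable (ε : ℝ) (hε : 0 < ε) : Summable (fun q : ℕ => (q : ℝ) * w ε q) := by
  set f : ℕ → ℝ := fun q => 1 / (((max q 2 : ℕ) : ℝ) * Real.log ((max q 2 : ℕ) : ℝ) ^ (1 + ε))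
    with hf
  have hm : ∀ q : ℕ, (0 : ℝ) < ((max q 2 : ℕ) : ℝ) := by
    intro q
    have : (0 : ℕ) < max q 2 := by omega
    exact_mod_cast this
  have hf0 : ∀ q, 0 ≤ f q := by
    intro q
    have h1 := log_pos' q
    have h2 := hm q
    simp only [hf]
    positivity
  have hsum : Summable f := by
    rw [← summable_condensed_iff_of_nonneg hf0]
    · have h1 : (0 : ℝ) < Real.log 2 := Real.log_pos (by norm_num)
      rw [← summable_nat_add_iff 1]
      have h2 : Summable (fun k : ℕ => (Real.log 2 ^ (1 + ε))⁻¹ * (((k + 1 : ℕ) : ℝ) ^ (1 + ε))⁻¹) := by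
        apply Summable.mul_left
        exact (summable_nat_add_iff 1).mpr (Real.summable_nat_rpow_inv.mpr (by linarith))
      refine h2.congr fun k => ?_
      have e1 : max (2 ^ (k + 1)) 2 = 2 ^ (k + 1) := by
        have : (2 : ℕ) ^ 1 ≤ 2 ^ (k + 1) := Nat.pow_le_pow_right (by norm_num) (by omega)
        omega
      simp only [hf]
      rw [e1]
      push_cast
      rw [Real.log_pow]
      push_cast
      rw [Real.mul_rpow (by positivity) h1.le]
      have e2 : (0 : ℝ) < (2 : ℝ) ^ (k + 1) := by positivity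
      field_simp
    · intro m n _ hmn
      simp only [hf]
      have h1 := log_pos' m
      have h2 := hm m
      have h3 : ((max m 2 : ℕ) : ℝ) ≤ ((max n 2 : ℕ) : ℝ) := by
        have : max m 2 ≤ max n 2 := by omega
        exact_mod_cast this
      apply one_div_le_one_div_of_le (by positivity)
      refine mul_le_mul h3 ?_ (by positivity) (by positivity)
      exact Real.rpow_le_rpow h1.le (Real.log_le_log h2 h3) (by linarith)
  refine Summable.of_nonneg_of_le (fun q => mul_nonneg (Nat.cast_nonneg q) (w_pos ε q).le)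
    (fun q => ?_) hsum
  have h1 := log_pos' q
  have h2 := hm q
  simp only [hf, w]
  have h3 : (q : ℝ) ≤ ((max q 2 : ℕ) : ℝ) := by exact_mod_cast le_max_left q 2
  rw [mul_one_div, div_le_div_iff₀ (by positivity) (by positivity)]
  have h4 : 0 < Real.log ((max q 2 : ℕ) : ℝ) ^ (1 + ε) := by positivity
  nlinarith [mul_le_mul_of_nonneg_right h3 (mul_nonneg h2.le h4.le)]

/-! ### the main count -/

theorem card_box (n H : ℕ) : (box n (H : ℤ)).card = (2 * H + 1) ^ n := by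
  unfold box
  rw [Fintype.card_piFinset_const, Int.card_Icc]
  congr 1
  omega

theorem mem_box {n : ℕ} {H : ℕ} {a : Fin n → ℤ} (ha : ∀ i, |a i| ≤ (H : ℤ)) :
    a ∈ box n (H : ℤ) := by
  unfold box
  rw [Fintype.mem_piFinset]
  intro i
  rw [mem_Icc]
  exact abs_le.mp (ha i)

open Classical in
/-- vectors with small nonzero last coordinate -/
noncomputable def LR (d T H : ℕ) : Finset (Fin (d + 1) → ℤ) :=
  (box (d + 1) (H : ℤ)).filter
    (fun a => a (Fin.last d) ≠ 0 ∧ |(a (Fin.last d) : ℝ)| * (T - 1) ≤ H)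

theorem card_LR (d T H : ℕ) (hT : 2 ≤ T) (hH : 1 ≤ H) :
    ((LR d T H).card : ℝ) ≤ (H : ℝ) ^ (d + 1) * (2 * 3 ^ d / (T - 1)) := by
  classical
  have hT2 : (2 : ℝ) ≤ T := by exact_mod_cast hT
  have hT1 : (0 : ℝ) < (T : ℝ) - 1 := by linarith
  set m : ℤ := ⌊(H : ℝ) / (T - 1)⌋ with hm
  have hm0 : 0 ≤ m := Int.floor_nonneg.mpr (by positivity)
  have hle : (LR d T H).card ≤ (((Icc (-m) m).erase 0) ×ˢ (box d (H : ℤ))).card := by
    refine Finset.card_le_card_of_injOn (fun a => (a (Fin.last d), Fin.init a)) ?_ ?_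
    · intro a ha
      have ha' := Finset.mem_coe.mp ha
      unfold LR at ha'
      obtain ⟨h1, h2, h3⟩ := Finset.mem_filter.mp ha'
      rw [Finset.mem_coe, Finset.mem_product]
      refine ⟨?_, ?_⟩
      · rw [Finset.mem_erase, mem_Icc]
        refine ⟨h2, ?_⟩
        have h4 : |(a (Fin.last d) : ℝ)| ≤ H / (T - 1) := by
          rw [le_div_iff₀ hT1]
          exact h3
        have h5 : |a (Fin.last d)| ≤ m := by
          rw [hm, Int.le_floor]
          push_cast
          exact h4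
        exact abs_le.mp h5
      · refine Fintype.mem_piFinset.mpr fun i => ?_
        exact (Fintype.mem_piFinset.mp h1) (Fin.castSucc i)
    · intro a _ b _ hab
      have h1 := (Prod.mk.injEq _ _ _ _).mp hab
      rw [← Fin.snoc_init_self a, ← Fin.snoc_init_self b, h1.1, h1.2]
  have hc1 : ((Icc (-m) m).erase 0).card = (2 * m).toNat := by
    rw [Finset.card_erase_of_mem (by rw [mem_Icc]; omega), Int.card_Icc]
    omega
  have hc2 : (((Icc (-m) m).erase 0).card : ℝ) ≤ 2 * (H / (T - 1)) := by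
    rw [hc1]
    have h6 : (((2 * m).toNat : ℕ) : ℝ) = 2 * (m : ℝ) := by
      have h7 : (((2 * m).toNat : ℕ) : ℤ) = 2 * m := Int.toNat_of_nonneg (by omega)
      calc (((2 * m).toNat : ℕ) : ℝ) = ((((2 * m).toNat : ℕ) : ℤ) : ℝ) :=
            (Int.cast_natCast _).symm
        _ = ((2 * m : ℤ) : ℝ) := by rw [h7]
        _ = 2 * (m : ℝ) := by push_cast; ring
    rw [h6]
    have := Int.floor_le ((H : ℝ) / (T - 1))
    linarith
  have hH1 : (1 : ℝ) ≤ H := by exact_mod_cast hH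
  calc ((LR d T H).card : ℝ)
      ≤ ((((Icc (-m) m).erase 0).card * (box d (H : ℤ)).card : ℕ) : ℝ) := by
        rw [← Finset.card_product]
        exact_mod_cast hle
    _ = (((Icc (-m) m).erase 0).card : ℝ) * (2 * H + 1) ^ d := by
        rw [card_box]
        push_cast
        ring
    _ ≤ (2 * (H / (T - 1))) * (3 * H) ^ d :=
        mul_le_mul hc2 (pow_le_pow_left₀ (by positivity) (by linarith) d) (by positivity)
          (by positivity)
    _ = (H : ℝ) ^ (d + 1) * (2 * 3 ^ d / (T - 1)) := by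
        rw [mul_pow, pow_succ]
        ring

open Classical in
theorem main_count (d : ℕ) (ε : ℝ) (hε : 0 < ε) (T : ℕ) (hT : 2 ≤ T) (c : ℝ)
    (hc : 0 < c) (hc1 : c ≤ Real.log 2 ^ (1 + ε)) (H : ℕ) (hH : 1 ≤ H)
    (BB : Finset (Fin (d + 1) → ℤ))
    (hB : ∀ a ∈ BB, (∀ i, |a i| ≤ (H : ℤ)) ∧ a (Fin.last d) ≠ 0 ∧
      (∀ (p : ℤ) (q : ℤ), 0 < q → ev a ((p : ℝ) / q) ≠ 0) ∧
      ∃ ξ : ℝ, ev a ξ = 0 ∧ ∃ (p : ℤ) (q : ℕ), 1 ≤ q ∧ q ≤ H ∧ IsCoprime p (q : ℤ) ∧
        |ξ - (p : ℝ) / q| ≤ c * w ε q) :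
    (BB.card : ℝ) ≤ (H : ℝ) ^ (d + 1) * (2 * 3 ^ d / (T - 1) +
      c * ((2 * T + 3) * (2 * KK d T * 4 ^ d)) * ∑' q : ℕ, (q : ℝ) * w ε q) := by
  have hH1 : (1 : ℝ) ≤ H := by exact_mod_cast hH
  set B : ℕ → ℝ := fun q => KK d T * H * (c * w ε q) * (q : ℝ) ^ d with hBdef
  have hB0 : ∀ q, 0 ≤ B q := by
    intro q
    have h1 := KK_nonneg d T
    have h2 := (w_pos ε q).le
    simp only [hBdef]
    positivity
  set MM : Finset (Fin (d + 1) → ℤ) := (Icc 1 H).biUnion fun q : ℕ =>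
    ((Icc (-(((T + 1) * q : ℕ) : ℤ)) (((T + 1) * q : ℕ) : ℤ)).filter
      (fun p : ℤ => IsCoprime p (q : ℤ))).biUnion fun p : ℤ =>
      ((Icc (-⌊B q⌋) ⌊B q⌋).erase 0).biUnion fun N : ℤ =>
        (box (d + 1) (H : ℤ)).filter (fun a => frm p q d a = N) with hMM
  have hsub : BB ⊆ LR d T H ∪ MM := by
    intro a ha
    obtain ⟨h1, h2, h3, ξ, h4, p, q, hq1, hqH, hpq, hle⟩ := hB a ha
    rw [Finset.mem_union]
    by_cases hξ : (T : ℝ) < |ξ|
    · left
      unfold LR
      rw [Finset.mem_filter]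
      exact ⟨mem_box h1, h2, lead_small d T H hT a h1 ξ h4 hξ⟩
    · right
      rw [not_lt] at hξ
      have hq0 : (0 : ℝ) < q := by exact_mod_cast hq1
      have hqz : (0 : ℤ) < q := by exact_mod_cast hq1
      have hw1 : c * w ε q ≤ 1 := by
        have h5 : 0 < Real.log 2 ^ (1 + ε) := by
          have : (0 : ℝ) < Real.log 2 := Real.log_pos (by norm_num)
          positivity
        calc c * w ε q ≤ Real.log 2 ^ (1 + ε) * (1 / Real.log 2 ^ (1 + ε)) :=
              mul_le_mul hc1 (w_le ε hε q) (w_pos ε q).le h5.le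
          _ = 1 := by field_simp
      have hy : |(p : ℝ) / q| ≤ T + 1 := by
        have h6 : (p : ℝ) / q = ξ - (ξ - (p : ℝ) / q) := by ring
        rw [h6]
        refine (abs_sub _ _).trans ?_
        linarith
      have hξ' : |ξ| ≤ T + 1 := by linarith
      have hN : |((frm p q d a : ℤ) : ℝ)| ≤ B q := by
        rw [frm_eq a p q hqz]
        push_cast
        rw [abs_mul, abs_of_nonneg (by positivity : (0 : ℝ) ≤ (q : ℝ) ^ d)]
        have h7 := ev_sub d T H a h1 ((p : ℝ) / q) ξ hy hξ'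
        rw [h4, sub_zero] at h7
        have h8 : |(p : ℝ) / q - ξ| ≤ c * w ε q := by rw [abs_sub_comm]; exact hle
        calc (q : ℝ) ^ d * |ev a ((p : ℝ) / q)|
            ≤ (q : ℝ) ^ d * (KK d T * H * |(p : ℝ) / q - ξ|) :=
              mul_le_mul_of_nonneg_left h7 (by positivity)
          _ ≤ (q : ℝ) ^ d * (KK d T * H * (c * w ε q)) := by
              refine mul_le_mul_of_nonneg_left ?_ (by positivity)
              exact mul_le_mul_of_nonneg_left h8 (mul_nonneg (KK_nonneg d T) (by positivity))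
          _ = B q := by simp only [hBdef]; ring
      have hN0 : frm p q d a ≠ 0 := by
        intro h9
        have h10 := frm_eq a p q hqz
        rw [h9, Int.cast_zero] at h10
        have h11 := h3 p q hqz
        have h12 : ((q : ℤ) : ℝ) ^ d ≠ 0 := by
          have : ((q : ℤ) : ℝ) ≠ 0 := by exact_mod_cast hqz.ne'
          positivity
        rcases mul_eq_zero.mp h10.symm with h13 | h13
        · exact h12 h13
        · exact h11 h13
      rw [hMM, Finset.mem_biUnion]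
      refine ⟨q, mem_Icc.mpr ⟨hq1, hqH⟩, ?_⟩
      rw [Finset.mem_biUnion]
      refine ⟨p, ?_, ?_⟩
      · rw [Finset.mem_filter]
        refine ⟨?_, hpq⟩
        rw [mem_Icc]
        have h14 : |p| ≤ (((T + 1) * q : ℕ) : ℤ) := by
          rw [abs_div, abs_of_pos hq0, div_le_iff₀ hq0] at hy
          exact_mod_cast hy
        exact abs_le.mp h14
      · rw [Finset.mem_biUnion]
        refine ⟨frm p q d a, ?_, ?_⟩
        · rw [Finset.mem_erase, mem_Icc]
          refine ⟨hN0, ?_⟩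
          have h15 : |frm p q d a| ≤ ⌊B q⌋ := by
            rw [Int.le_floor]
            push_cast
            exact hN
          exact abs_le.mp h15
        · rw [Finset.mem_filter]
          exact ⟨mem_box h1, rfl⟩
  have hMMcard : (MM.card : ℝ) ≤ ∑ q ∈ Icc 1 H, (H : ℝ) ^ (d + 1) *
      (c * ((2 * T + 3) * (2 * KK d T * 4 ^ d)) * ((q : ℝ) * w ε q)) := by
    have e1 : MM.card ≤ ∑ q ∈ Icc 1 H,
        (((Icc (-(((T + 1) * q : ℕ) : ℤ)) (((T + 1) * q : ℕ) : ℤ)).filter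
      (fun p : ℤ => IsCoprime p (q : ℤ))).biUnion fun p : ℤ =>
      ((Icc (-⌊B q⌋) ⌊B q⌋).erase 0).biUnion fun N : ℤ =>
        (box (d + 1) (H : ℤ)).filter (fun a => frm p q d a = N)).card := Finset.card_biUnion_le
    refine (Nat.cast_le.mpr e1).trans ?_
    push_cast
    refine Finset.sum_le_sum fun q hq => ?_
    obtain ⟨hq1, hqH⟩ := mem_Icc.mp hq
    have hq0 : (0 : ℝ) < q := by exact_mod_cast hq1
    have hq1R : (1 : ℝ) ≤ q := by exact_mod_cast hq1
    have hqz : (0 : ℤ) < q := by exact_mod_cast hq1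
    have hqHz : (q : ℤ) ≤ (H : ℤ) := by exact_mod_cast hqH
    have e2 : ∀ p ∈ ((Icc (-(((T + 1) * q : ℕ) : ℤ)) (((T + 1) * q : ℕ) : ℤ)).filter
        (fun p : ℤ => IsCoprime p (q : ℤ))),
        ((((Icc (-⌊B q⌋) ⌊B q⌋).erase 0).biUnion fun N : ℤ =>
          (box (d + 1) (H : ℤ)).filter (fun a => frm p q d a = N)).card : ℝ) ≤
          (2 * B q) * (4 * H / q) ^ d := by
      intro p hp
      have hcop := (Finset.mem_filter.mp hp).2
      have e3 : (((Icc (-⌊B q⌋) ⌊B q⌋).erase 0).biUnion fun N : ℤ =>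
          (box (d + 1) (H : ℤ)).filter (fun a => frm p q d a = N)).card ≤
          ∑ N ∈ (Icc (-⌊B q⌋) ⌊B q⌋).erase 0,
            ((box (d + 1) (H : ℤ)).filter (fun a => frm p q d a = N)).card :=
        Finset.card_biUnion_le
      have e4 : (∑ N ∈ (Icc (-⌊B q⌋) ⌊B q⌋).erase 0,
            (((box (d + 1) (H : ℤ)).filter (fun a => frm p q d a = N)).card : ℝ)) ≤
          ∑ _N ∈ (Icc (-⌊B q⌋) ⌊B q⌋).erase 0, (4 * (H : ℝ) / q) ^ d := by
        refine Finset.sum_le_sum fun N _ => ?_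
        have := card_sol (H : ℤ) (q : ℤ) p hqz hqHz hcop d N
        rw [Int.cast_natCast, Int.cast_natCast] at this
        exact this
      have hfl0 : 0 ≤ ⌊B q⌋ := Int.floor_nonneg.mpr (hB0 q)
      have e5 : (((Icc (-⌊B q⌋) ⌊B q⌋).erase 0).card : ℝ) ≤ 2 * B q := by
        rw [Finset.card_erase_of_mem (by rw [mem_Icc]; omega), Int.card_Icc]
        have e6 : (⌊B q⌋ + 1 - -⌊B q⌋).toNat - 1 = (2 * ⌊B q⌋).toNat := by omega
        rw [e6]
        have e7 : (((2 * ⌊B q⌋).toNat : ℕ) : ℝ) = 2 * ((⌊B q⌋ : ℤ) : ℝ) := by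
          have h7 : (((2 * ⌊B q⌋).toNat : ℕ) : ℤ) = 2 * ⌊B q⌋ := Int.toNat_of_nonneg (by omega)
          calc (((2 * ⌊B q⌋).toNat : ℕ) : ℝ) = ((((2 * ⌊B q⌋).toNat : ℕ) : ℤ) : ℝ) :=
                (Int.cast_natCast _).symm
            _ = ((2 * ⌊B q⌋ : ℤ) : ℝ) := by rw [h7]
            _ = 2 * ((⌊B q⌋ : ℤ) : ℝ) := by push_cast; ring
        rw [e7]
        have := Int.floor_le (B q)
        linarith
      calc ((((Icc (-⌊B q⌋) ⌊B q⌋).erase 0).biUnion fun N : ℤ =>
          (box (d + 1) (H : ℤ)).filter (fun a => frm p q d a = N)).card : ℝ)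
          ≤ ∑ N ∈ (Icc (-⌊B q⌋) ⌊B q⌋).erase 0,
            (((box (d + 1) (H : ℤ)).filter (fun a => frm p q d a = N)).card : ℝ) := by
            exact_mod_cast e3
        _ ≤ ∑ _N ∈ (Icc (-⌊B q⌋) ⌊B q⌋).erase 0, (4 * (H : ℝ) / q) ^ d := e4
        _ = (((Icc (-⌊B q⌋) ⌊B q⌋).erase 0).card : ℝ) * (4 * (H : ℝ) / q) ^ d := by
            rw [Finset.sum_const, nsmul_eq_mul]
        _ ≤ (2 * B q) * (4 * H / q) ^ d := mul_le_mul_of_nonneg_right e5 (by positivity)
    have e8 : ((((Icc (-(((T + 1) * q : ℕ) : ℤ)) (((T + 1) * q : ℕ) : ℤ)).filter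
        (fun p : ℤ => IsCoprime p (q : ℤ))).card : ℕ) : ℝ) ≤ (2 * T + 3) * q := by
      have e9 : ((Icc (-(((T + 1) * q : ℕ) : ℤ)) (((T + 1) * q : ℕ) : ℤ)).filter
        (fun p : ℤ => IsCoprime p (q : ℤ))).card ≤ 2 * ((T + 1) * q) + 1 := by
        refine (Finset.card_filter_le _ _).trans ?_
        rw [Int.card_Icc]
        omega
      have e10 : ((2 * ((T + 1) * q) + 1 : ℕ) : ℝ) ≤ (2 * T + 3) * q := by
        push_cast
        nlinarith
      exact (Nat.cast_le.mpr e9).trans e10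
    have e11 : 0 ≤ (2 * B q) * (4 * H / q) ^ d := by
      have := hB0 q
      positivity
    calc (((((Icc (-(((T + 1) * q : ℕ) : ℤ)) (((T + 1) * q : ℕ) : ℤ)).filter
      (fun p : ℤ => IsCoprime p (q : ℤ))).biUnion fun p : ℤ =>
      ((Icc (-⌊B q⌋) ⌊B q⌋).erase 0).biUnion fun N : ℤ =>
        (box (d + 1) (H : ℤ)).filter (fun a => frm p q d a = N)).card : ℕ) : ℝ)
        ≤ ∑ p ∈ ((Icc (-(((T + 1) * q : ℕ) : ℤ)) (((T + 1) * q : ℕ) : ℤ)).filter
      (fun p : ℤ => IsCoprime p (q : ℤ))), ((((Icc (-⌊B q⌋) ⌊B q⌋).erase 0).biUnion fun N : ℤ =>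
        (box (d + 1) (H : ℤ)).filter (fun a => frm p q d a = N)).card : ℝ) := by
          exact_mod_cast Finset.card_biUnion_le
      _ ≤ ∑ _p ∈ ((Icc (-(((T + 1) * q : ℕ) : ℤ)) (((T + 1) * q : ℕ) : ℤ)).filter
      (fun p : ℤ => IsCoprime p (q : ℤ))), (2 * B q) * (4 * H / q) ^ d := Finset.sum_le_sum e2
      _ = ((((Icc (-(((T + 1) * q : ℕ) : ℤ)) (((T + 1) * q : ℕ) : ℤ)).filter
      (fun p : ℤ => IsCoprime p (q : ℤ))).card : ℕ) : ℝ) * ((2 * B q) * (4 * H / q) ^ d) := by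
          rw [Finset.sum_const, nsmul_eq_mul]
      _ ≤ ((2 * T + 3) * q) * ((2 * B q) * (4 * H / q) ^ d) :=
          mul_le_mul_of_nonneg_right e8 e11
      _ = (H : ℝ) ^ (d + 1) *
      (c * ((2 * T + 3) * (2 * KK d T * 4 ^ d)) * ((q : ℝ) * w ε q)) := by
          simp only [hBdef]
          rw [div_pow, mul_pow, pow_succ]
          field_simp
  have hsumle : ∑ q ∈ Icc 1 H, (q : ℝ) * w ε q ≤ ∑' q : ℕ, (q : ℝ) * w ε q :=
    Summable.sum_le_tsum _ (fun q _ => mul_nonneg (Nat.cast_nonneg q) (w_pos ε q).le)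
      (w_summable ε hε)
  calc (BB.card : ℝ) ≤ ((LR d T H ∪ MM).card : ℝ) := by exact_mod_cast Finset.card_le_card hsub
    _ ≤ ((LR d T H).card : ℝ) + MM.card := by exact_mod_cast Finset.card_union_le _ _
    _ ≤ (H : ℝ) ^ (d + 1) * (2 * 3 ^ d / (T - 1)) + (H : ℝ) ^ (d + 1) *
      (c * ((2 * T + 3) * (2 * KK d T * 4 ^ d)) * ∑' q : ℕ, (q : ℝ) * w ε q) := by
        refine add_le_add (card_LR d T H hT hH) (hMMcard.trans ?_)
        rw [← Finset.mul_sum, ← Finset.mul_sum]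
        have h1 := KK_nonneg d T
        refine mul_le_mul_of_nonneg_left ?_ (by positivity)
        exact mul_le_mul_of_nonneg_left hsumle (by positivity)
    _ = _ := by ring

/-! ### the result -/

theorem ev_eq_aeval (d : ℕ) (P : ℤ[X]) (hP : P.natDegree = d) (y : ℝ) :
    ev (fun i : Fin (d + 1) => P.coeff i) y = Polynomial.aeval y P := by
  rw [Polynomial.aeval_eq_sum_range, hP]
  unfold ev
  rw [← Fin.sum_univ_eq_sum_range (fun i => P.coeff i • y ^ i) (d + 1)]
  refine Finset.sum_congr rfl fun i _ => ?_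
  simp [zsmul_eq_mul]

theorem no_rat_root (d : ℕ) (hd : 2 ≤ d) (P : ℤ[X]) (hP : P.natDegree = d)
    (hirr : Irreducible (P.map (Int.castRingHom ℚ))) (p q : ℤ) :
    Polynomial.aeval ((p : ℝ) / q) P ≠ 0 := by
  intro h
  have h1 : ((p : ℝ) / q) = algebraMap ℚ ℝ ((p : ℚ) / q) := by
    simp
  have h2 : Polynomial.aeval ((p : ℚ) / q) P = 0 := by
    rw [h1, Polynomial.aeval_algebraMap_apply] at h
    exact (map_eq_zero_iff _ (algebraMap ℚ ℝ).injective).mp h
  have h3 : (P.map (Int.castRingHom ℚ)).IsRoot ((p : ℚ) / q) := by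
    rw [Polynomial.IsRoot, Polynomial.eval_map]
    exact h2
  have h4 := Polynomial.degree_eq_one_of_irreducible_of_root hirr h3
  have h5 : (P.map (Int.castRingHom ℚ)).natDegree = d := by
    rw [Polynomial.natDegree_map_eq_of_injective (RingHom.injective_int (Int.castRingHom ℚ)), hP]
  have h6 : (P.map (Int.castRingHom ℚ)).natDegree = 1 :=
    Polynomial.natDegree_eq_of_degree_eq_some h4
  omega

/-- the polynomial with given coefficients -/
noncomputable def polZ {n : ℕ} (a : Fin n → ℤ) : ℤ[X] := ∑ i : Fin n, C (a i) * X ^ (i : ℕ)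

theorem polZ_coeff (d : ℕ) (P : ℤ[X]) (hP : P.natDegree = d) :
    polZ (fun i : Fin (d + 1) => P.coeff i) = P := by
  unfold polZ
  rw [Fin.sum_univ_eq_sum_range (fun i => C (P.coeff i) * X ^ i) (d + 1)]
  conv_rhs => rw [Polynomial.as_sum_range_C_mul_X_pow P, hP]

theorem w_eq (ε : ℝ) (c : ℝ) (q : ℕ) (hq : 2 ≤ q) :
    c / ((q : ℝ) ^ 2 * Real.log q ^ (1 + ε)) = c * w ε q := by
  unfold w
  rw [max_eq_left hq, mul_one_div]

/-- **Lang's inequality for almost all algebraic numbers, up to the height.** -/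
theorem result (d : ℕ) (hd : 2 ≤ d) (ε η : ℝ) (hε : 0 < ε) (hη : 0 < η) :
    ∃ c : ℝ, 0 < c ∧ ∀ H : ℕ, 1 ≤ H →
      {ξ : ℝ | (∃ P : Polynomial ℤ, P.natDegree = d ∧ (∀ i, |P.coeff i| ≤ (H : ℤ)) ∧
          Irreducible (P.map (Int.castRingHom ℚ)) ∧ Polynomial.aeval ξ P = 0) ∧
        ∃ (p : ℤ) (q : ℕ), 2 ≤ q ∧ q ≤ H ∧
          |ξ - (p : ℝ) / q| ≤ c / ((q : ℝ) ^ 2 * Real.log q ^ (1 + ε))}.Finite ∧
      ({ξ : ℝ | (∃ P : Polynomial ℤ, P.natDegree = d ∧ (∀ i, |P.coeff i| ≤ (H : ℤ)) ∧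
          Irreducible (P.map (Int.castRingHom ℚ)) ∧ Polynomial.aeval ξ P = 0) ∧
        ∃ (p : ℤ) (q : ℕ), 2 ≤ q ∧ q ≤ H ∧
          |ξ - (p : ℝ) / q| ≤ c / ((q : ℝ) ^ 2 * Real.log q ^ (1 + ε))}.ncard : ℝ) ≤
        η * (H : ℝ) ^ (d + 1) := by
  classical
  have hd0 : (0 : ℝ) < d := by
    have : 0 < d := by omega
    exact_mod_cast this
  set T : ℕ := ⌈4 * (d : ℝ) * 3 ^ d / η⌉₊ + 2 with hTdef
  have hT : 2 ≤ T := by omega
  have hT1 : 4 * (d : ℝ) * 3 ^ d / η ≤ (T : ℝ) - 1 := by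
    have h1 := Nat.le_ceil (4 * (d : ℝ) * 3 ^ d / η)
    rw [hTdef]
    push_cast
    linarith
  have hT2 : (2 : ℝ) ≤ T := by exact_mod_cast hT
  have hT3 : (0 : ℝ) < (T : ℝ) - 1 := by linarith
  have hTη : 2 * 3 ^ d / ((T : ℝ) - 1) ≤ η / (2 * d) := by
    rw [div_le_iff₀ hη] at hT1
    rw [div_le_div_iff₀ hT3 (by positivity)]
    nlinarith
  set Z : ℝ := ((2 * T + 3) * (2 * KK d T * 4 ^ d)) * ∑' q : ℕ, (q : ℝ) * w ε q with hZ
  have hZ0 : 0 ≤ Z := by
    have h1 := KK_nonneg d T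
    have h2 : 0 ≤ ∑' q : ℕ, (q : ℝ) * w ε q :=
      tsum_nonneg fun q => mul_nonneg (Nat.cast_nonneg q) (w_pos ε q).le
    rw [hZ]
    positivity
  have hlog : (0 : ℝ) < Real.log 2 := Real.log_pos (by norm_num)
  set c : ℝ := min (Real.log 2 ^ (1 + ε)) (η / (2 * d * (Z + 1))) with hc
  have hc0 : 0 < c := lt_min (by positivity) (by positivity)
  have hc1 : c ≤ Real.log 2 ^ (1 + ε) := min_le_left _ _
  have hcZ : c * Z ≤ η / (2 * d) := by
    have h1 : c ≤ η / (2 * d * (Z + 1)) := min_le_right _ _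
    calc c * Z ≤ η / (2 * d * (Z + 1)) * (Z + 1) :=
          mul_le_mul h1 (by linarith) hZ0 (by positivity)
      _ = η / (2 * d) := by
          field_simp
  refine ⟨c, hc0, fun H hH => ?_⟩
  set S : Set ℝ := {ξ : ℝ | (∃ P : Polynomial ℤ, P.natDegree = d ∧
      (∀ i, |P.coeff i| ≤ (H : ℤ)) ∧
          Irreducible (P.map (Int.castRingHom ℚ)) ∧ Polynomial.aeval ξ P = 0) ∧
        ∃ (p : ℤ) (q : ℕ), 2 ≤ q ∧ q ≤ H ∧
          |ξ - (p : ℝ) / q| ≤ c / ((q : ℝ) ^ 2 * Real.log q ^ (1 + ε))} with hS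
  set BB : Finset (Fin (d + 1) → ℤ) := (box (d + 1) (H : ℤ)).filter (fun a =>
    ∃ P : Polynomial ℤ, (fun i : Fin (d + 1) => P.coeff i) = a ∧ P.natDegree = d ∧
      (∀ i, |P.coeff i| ≤ (H : ℤ)) ∧ Irreducible (P.map (Int.castRingHom ℚ)) ∧
      ∃ ξ : ℝ, Polynomial.aeval ξ P = 0 ∧ ∃ (p : ℤ) (q : ℕ), 2 ≤ q ∧ q ≤ H ∧
          |ξ - (p : ℝ) / q| ≤ c / ((q : ℝ) ^ 2 * Real.log q ^ (1 + ε))) with hBB
  have hcount := main_count d ε hε T hT c hc0 hc1 H hH BB (by
    intro a ha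
    rw [hBB, Finset.mem_filter] at ha
    obtain ⟨_, P, hPa, hPd, hPH, hPirr, ξ, hξ, p, q, hq2, hqH, hle⟩ := ha
    subst hPa
    refine ⟨fun i => hPH i, ?_, ?_, ξ, ?_, ?_⟩
    · have h1 : P ≠ 0 := by
        intro h0
        rw [h0, Polynomial.natDegree_zero] at hPd
        omega
      have h2 : P.coeff d ≠ 0 := by
        rw [← hPd]
        exact Polynomial.leadingCoeff_ne_zero.mpr h1
      simpa using h2
    · intro p' q' _
      rw [ev_eq_aeval d P hPd]
      exact no_rat_root d hd P hPd hPirr p' q'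
    · rw [ev_eq_aeval d P hPd]
      exact hξ
    · set r : ℚ := (p : ℚ) / ((q : ℤ) : ℚ) with hr
      have h1 : (p : ℝ) / q = (r.num : ℝ) / (r.den : ℝ) := by
        have h2 : ((r : ℚ) : ℝ) = (r.num : ℝ) / (r.den : ℝ) := Rat.cast_def r
        rw [← h2, hr]
        push_cast
        rfl
      have h3 : (r.den : ℤ) ∣ (q : ℤ) := by
        rw [hr, ← Rat.divInt_eq_div]
        exact Rat.den_dvd p (q : ℤ)
      have h4 : r.den ≤ q := Nat.le_of_dvd (by omega) (by exact_mod_cast h3)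
      have h5 : 1 ≤ r.den := r.den_pos
      have h6 : IsCoprime r.num (r.den : ℤ) :=
        Int.isCoprime_iff_gcd_eq_one.mpr (by simpa [Int.gcd] using r.reduced)
      refine ⟨r.num, r.den, h5, h4.trans hqH, h6, ?_⟩
      rw [← h1]
      refine hle.trans ?_
      rw [w_eq ε c q hq2]
      exact mul_le_mul_of_nonneg_left (w_anti ε hε h4) hc0.le)
  set U : Finset ℝ := BB.biUnion (fun a => ((polZ a).map (Int.castRingHom ℝ)).roots.toFinset)
    with hU
  have hSU : S ⊆ (U : Set ℝ) := by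
    rintro ξ ⟨⟨P, hPd, hPH, hPirr, hξ⟩, hpq⟩
    rw [hU, Finset.mem_coe, Finset.mem_biUnion]
    refine ⟨fun i : Fin (d + 1) => P.coeff i, ?_, ?_⟩
    · rw [hBB, Finset.mem_filter]
      exact ⟨mem_box fun i => hPH i, P, rfl, hPd, hPH, hPirr, ξ, hξ, hpq⟩
    · rw [polZ_coeff d P hPd, Multiset.mem_toFinset, Polynomial.mem_roots', Polynomial.IsRoot,
        Polynomial.eval_map]
      refine ⟨?_, hξ⟩
      rw [Polynomial.map_ne_zero_iff (RingHom.injective_int (Int.castRingHom ℝ))]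
      intro h0
      rw [h0, Polynomial.natDegree_zero] at hPd
      omega
  have hUcard : U.card ≤ BB.card * d := by
    refine Finset.card_biUnion_le_card_mul _ _ _ fun a ha => ?_
    rw [hBB, Finset.mem_filter] at ha
    obtain ⟨_, P, hPa, hPd, _⟩ := ha
    rw [← hPa, polZ_coeff d P hPd]
    refine (Multiset.toFinset_card_le _).trans ((Polynomial.card_roots' _).trans ?_)
    exact Polynomial.natDegree_map_le.trans hPd.le
  refine ⟨U.finite_toSet.subset hSU, ?_⟩
  have h1 : S.ncard ≤ U.card := by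
    rw [← Set.ncard_coe_finset]
    exact Set.ncard_le_ncard hSU U.finite_toSet
  have h2 : (S.ncard : ℝ) ≤ (BB.card : ℝ) * d := by exact_mod_cast h1.trans hUcard
  refine h2.trans ?_
  have hHp : (0 : ℝ) ≤ (H : ℝ) ^ (d + 1) := by positivity
  calc (BB.card : ℝ) * d ≤ ((H : ℝ) ^ (d + 1) * (2 * 3 ^ d / (T - 1) +
      c * ((2 * T + 3) * (2 * KK d T * 4 ^ d)) * ∑' q : ℕ, (q : ℝ) * w ε q)) * d :=
        mul_le_mul_of_nonneg_right hcount hd0.le
    _ = (H : ℝ) ^ (d + 1) * (2 * 3 ^ d / (T - 1) + c * Z) * d := by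
        rw [hZ]
        ring
    _ ≤ (H : ℝ) ^ (d + 1) * (η / (2 * d) + η / (2 * d)) * d := by
        refine mul_le_mul_of_nonneg_right ?_ hd0.le
        exact mul_le_mul_of_nonneg_left (add_le_add hTη hcZ) hHp
    _ = η * (H : ℝ) ^ (d + 1) := by
        field_simp
        ring

end Pool.Agent.Results.MP_c307ca_nt.AlmostAllToHeight
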